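import Pool.Agent.H140.LD.Shift2

/-!
# MP_0e3347_nt: a Legendre-symbol determinant built from `j - k + 1`, `j`, `k`, `jk`

For every prime `p > 3` and all complex `x, y, z, w` the determinant of order `(p - 1) / 2` with
entries `x + ((j-k+1)/p) + (j/p) y + (k/p) z + (jk/p) w`, `1 ≤ j, k ≤ (p - 1) / 2`, is the
conjectured polynomial.

Method. Put `t_a = (a/p) ζ^a`. The generalised Vandermonde matrices with the nodes `± 1, t_a` and
the exponents `0, p, 2, 3, ..., p - 1`, and with the nodes `t_a` and the exponents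
`1, 2, ..., p - 2, p + 1`, are products of the Fourier matrix and matrices which are, up to unit
columns and a permutation of the columns, multiples of `[((c_i - j)/p) + x]` and of the bordered
matrix `[((c_i - j)/p), 1; (-(j + 1)/p), 1]`. The sign of the latter for `p = 3` modulo `4` is given
by Mordell's formula for `((p - 1) / 2)!`.
-/

set_option autoImplicit false

namespace Pool.Agent.Results.MP_0e3347_nt.ShiftedFour

open NumberField Pool.Agent.H140.LD

/-- The determinant `D_p`; the row index `j` and the column index `k` of the problem are the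
elements of `Fin ((p - 1) / 2)` plus one. -/
noncomputable def D (p : ℕ) [Fact p.Prime] (x y z w : ℂ) : ℂ :=
  (Matrix.of fun j k : Fin ((p - 1) / 2) =>
    x + ((legendreSym p ((((j : ℕ) + 1 : ℕ) : ℤ) - (((k : ℕ) + 1 : ℕ) : ℤ) + 1) : ℤ) : ℂ) +
      ((legendreSym p (((j : ℕ) + 1 : ℕ) : ℤ) : ℤ) : ℂ) * y +
      ((legendreSym p (((k : ℕ) + 1 : ℕ) : ℤ) : ℤ) : ℂ) * z +
      ((legendreSym p ((((j : ℕ) + 1 : ℕ) : ℤ) * (((k : ℕ) + 1 : ℕ) : ℤ)) : ℤ) : ℂ) * w).det

/-- **Q1.** For `p = 1` modulo `4`: `K = ℚ(√p)`, `s = √p`, `ε` the fundamental unit larger than `1`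
(in the real embedding `σ` with `σ s > 0`), `ε ^ ((2 - (2/p)) h) = a' + b' s`. For `p = 3` modulo
`4`: `K = ℚ(√-p)`, with the class number `h(-p)`. -/
theorem result (p : ℕ) [Fact p.Prime] (hp3 : 3 < p) :
    (p % 4 = 1 → ∀ (K : Type) [Field K] [NumberField K] (s : K) (σ : K →+* ℝ) (ε : (𝓞 K)ˣ)
      (a' b' : ℚ), FundUnit p K s σ ε →
      ((ε : 𝓞 K) : K) ^ ((2 - legendreSym p 2).toNat * classNumber K) = a' + b' * s →
      ∀ x y z w : ℂ, D p x y z w =
        ((legendreSym p 2 : ℤ) : ℂ) * ((p - 1) / 2) * ((y + 1) * z - w * x) +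
          (p * b' - a') * ((w + 1) * x - y * z) +
          ((legendreSym p 2 : ℤ) : ℂ) * (b' - a') * (w * (1 - x) + (y + 1) * (z + 1))) ∧
    (p % 4 = 3 → ∀ (K : Type) [Field K] [NumberField K] (s : K), Module.finrank ℚ K = 2 →
      s ^ 2 = -(p : K) → ∀ x y z w : ℂ, D p x y z w =
        (w + 1) * x - y * z +
          ((legendreSym p 2 : ℤ) : ℂ) * ((y + 1) * (z - 1) - w * (x + 1)) +
          (-1) ^ ((classNumber K - 1) / 2) * ((p + 1) / 2) * (w * x - (y + 1) * z)) := by
  have hodd : p % 2 = 1 := by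
    rcases (Fact.out : p.Prime).eq_two_or_odd with h | h
    · omega
    · exact h
  obtain ⟨m, hm⟩ : ∃ m, p = 2 * m + 1 := ⟨p / 2, by omega⟩
  have hn : (p - 1) / 2 = m := by omega
  have hD : ∀ x y z w : ℂ, D p x y z w =
      (Matrix.of fun i j : Fin m => x + chi p (((i : ℕ) : ZMod p) + 1 - ((j : ℕ) : ZMod p)) +
      chi p (((i : ℕ) : ZMod p) + 1) * y + chi p (((j : ℕ) : ZMod p) + 1) * z +
      chi p (((i : ℕ) : ZMod p) + 1) * chi p (((j : ℕ) : ZMod p) + 1) * w).det := by
    intro x y z w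
    unfold D
    rw [hn]
    congr 1
    ext j k
    simp only [Matrix.of_apply, leg_chi]
    push_cast
    rw [map_mul]
    congr 5
    ring
  constructor
  · intro h4 K _ _ s σ ε a' b' hF hab x y z w
    have hpm : (-1 : ℂ) ^ (m - 1) = -1 := by
      rw [Odd.neg_one_pow ⟨m / 2 - 1, by omega⟩]
    rw [hD, shift_four (by omega) (chi p 2 * (b' - a')) (p * b' - a') (-(chi p 2 * ((p - 1) / 2)))
      (fun x => by rw [AR_one h4 hm hF hab, hpm]; ring) (by rw [BR_one h4 hm, hpm]; ring),
      sg_one h4, leg_chi]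
    push_cast
    ring
  · intro h4 K _ _ s hK hs x y z w
    have hpm : (-1 : ℂ) ^ (m - 1) = 1 := by
      rw [Even.neg_one_pow ⟨m / 2, by omega⟩]
    rw [hD, shift_four (by omega) (-chi p 2) 1
      (chi p ((m.factorial : ℕ) : ZMod p) * ((p + 1) / 2))
      (fun x => by rw [AR_three h4 hm, hpm]; ring) (by rw [BR_three h4 hm, hpm]; ring),
      sg_three h4, leg_chi, chi_fact_three h4 hp3 hm hK s hs]
    push_cast
    ring

end Pool.Agent.Results.MP_0e3347_nt.ShiftedFour
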